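import Pool.Agent.Q230.HD.Main
import Pool.Agent.Q230.HD.PT
import Pool.Agent.Q124.HD.A
import Pool.Agent.Q124.HD.C
import Pool.Agent.Q166.HDP.SB
import Pool.Agent.Q63.HD.D
import Pool.Agent.Q63.HD.F
import Pool.Agent.Q162.HD.SE

/-!
# The Hadamard decomposition problem is `∃ℝ`-hard

`HDP` is the decision problem of the problem file: for a rational matrix `M` and numbers `k₁`, `k₂`,
are there real matrices `M₁`, `M₂` of ranks `k₁`, `k₂` with the entrywise product `M`? It is in `∃ℝ`
(known), so it is `∃ℝ`-complete.

**Proof.** Our instances have `k₁ = R`, `k₂ = K` with `K > R`, and `M` is a matrix of the maximal
possible rank `R K` whose columns are numbered by pairs `(a, l)` of a block `a` and a coordinate `l`.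

*Structure.* If `M = M₁ ⊙ M₂` then the rows of `M` are the coordinate vectors of decomposable tensors
in `ℝ ^ R ⊗ ℝ ^ K` with respect to a basis, which consists of decomposable tensors, since the unit
vectors are among the rows. The sums of two unit vectors of the same block are also rows; so the sums
of two of the tensors of a block are decomposable, and, as `K > R`, one finds that the tensors of the
block `a` are `α_a ⊗ p_{a l}`. So with the matrices `B_a` with the columns `p_{a l}`: a decomposition
exists iff there are invertible `K × K` matrices `B_a` such that for every row `x` of `M` the
vectors `B_a x_a` are multiples of one vector.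

*Registers.* Rows of this kind can force that `B_0⁻¹ B_a` is a diagonal matrix, with any number of
unknown nonzero diagonal entries; rows with a diagonal matrix and a matrix with prescribed
eigenvectors give linear equations for these entries, and rows with two diagonal matrices give
equations between ratios, hence products.

By helper230 (reduction, assembly), helper124, helper166, helper63 and helper162 (lemmas).
-/

set_option autoImplicit false

namespace Pool.Agent.Results.MP_c79a71_lc.HadamardDecomposition

open Pool.Agent.NPC Pool.Agent.NPC.ER Pool.Agent.Q230.HD

/-- The Hadamard decomposition problem is hard for the existential theory of the reals under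
polynomial-time many-one reductions. -/
theorem result : ERHard (lang HDP) :=
  ERHard.of_sys sg (red_iff Q124.HD.sa Q166.HDP.sb Q124.HD.sc Q63.HD.sd Q162.HD.se Q63.HD.sf)

end Pool.Agent.Results.MP_c79a71_lc.HadamardDecomposition
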